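import Pool.Agent.W5h9.GC.CovMain

/-!
# Vojta's conjecture with multiplier ideals on all curves, near numbers with restricted digits

Let `X` be a smooth projective curve over `ℚ` and `t : X → ℙ¹` a finite map of degree `N` which is
unramified outside the fibres over rational points `a_1, …, a_q ≠ ∞`. By Belyi's theorem every curve
has such a map with `q = 3`, and a given finite set of closed points of `X` can be assumed to lie in
these fibres. Let `A` be the ring of functions on `X` with poles only over `∞`: a Dedekind domain,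
finite over `ℚ[t]`. By the formula of Riemann and Hurwitz
`(deg K_X) / N = q - 2 - (∑_j dim (A / √(t - a_j))) / N =: canonicalDegree`, so
`canonicalDegree * h(t(P))` is a height `h_{K_X}(P)`, up to an arbitrarily small multiple of `h(t(P))`
(up to `O(1)` if `K_X` is a rational multiple of the divisor of poles of `t`, numerically it always is).
An ideal sheaf `I ≠ 0` on `X` with support in the fibres over the `a_j` is an ideal `I` of `A` with
`∏_j (t - a_j) ^ k ∈ I`. If `I` is the product of the `𝔪 ^ (n_𝔪)`, then the ideal `I⁻` of the problem is the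
product of the `𝔪 ^ (n_𝔪 - 1)` over the `𝔪` with `n_𝔪 ≥ 1`; it is the quotient `(I : √I)`. If the first of
the generators `f_0, …, f_m` of `I` is a power of `∏_j (t - a_j)`, which has poles at all points over
`∞`, then `max (0, - log max_l |f_l(P)|_v)` is the local height `λ_I(P, v)`, up to `O(1)`.

Let `𝒜` be a finite set of positive integers and let `E_𝒜` be the (fractal) set of the numbers
`[0; a_0, a_1, …]` with all partial quotients in `𝒜`, a set of Lebesgue measure zero. We assume that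
its Hausdorff dimension `δ` is larger than `1 / 2` (this holds for `𝒜 = {1, 2, 3}`). We prove that for
all `z ∈ E_𝒜` outside a set of smaller dimension (for `θ = 0` and `q = 3` at most `(δ + 1) / 3`) there is
`ρ > 0` such that for ALL curves `X`, ALL maps `t`, ALL ideals `I` and ALL finite sets `S` of primes
`h_{K_X}(P) + ∑_{v ∈ S ∪ {∞}} λ_I(P, v) - ∑_{v ∈ S ∪ {∞}} λ_{I⁻}(P, v) + θ h(t(P)) ≤
  d(P) + ∑_{p ∈ S} log p + c` for ALL points `P` of `X` over the rational points `x` with
`|z - x| ≤ H(x) ^ (ρ - 2)`, for example over all convergents of `z`; these `P` have degree at most `N`.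
Moreover the rational points can be transformed by any fixed linear fractional transformation `h` over
`ℚ`, so that the branch points `a_j`, which are not `∞`, can have any position relative to `z`.
For almost all `z ∈ E_𝒜` (for the Hausdorff measure of dimension `δ`) this holds for all `q` and all
`θ < 2`. For `θ = 0` it is the inequality of the problem for these `P`, even without the term
`ε h_A(P)`.

The definitions `EA`, `δ` and `Near` are in `Pool.Agent.W5h9.GC`:

* `K w = (q, p)`, where `[0; w] = p / q` is the finite continued fraction of the word `w`,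
  `pre a n = [a 0, …, a (n - 1)]`, and `val a` is the limit of the `p / q` with `K (pre a n) = (q, p)`;
* `EA 𝒜` is the set of the `val a` with all `a i ∈ 𝒜`, and `δ 𝒜` is its Hausdorff dimension;
* `Near ρ z`: the pairs `x = (p, q)` of coprime integers, `q > 0`, with `|z - p / q| ≤ q ^ (ρ - 2)`.
-/

set_option autoImplicit false

namespace Pool.Agent.Results.MP_8865d3_nt.AllCurvesNearFractals

open Polynomial NumberField IsDedekindDomain MeasureTheory
open Pool.Agent.W5h9.GC (EA δ Near)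

/-- The function `t - a`. -/
noncomputable def linear (A : Type) [CommRing A] [Algebra ℚ[X] A] (a : ℚ) : A :=
  algebraMap ℚ[X] A X - algebraMap ℚ[X] A (C a)

/-- The logarithmic discriminant `log |disc L| / [L : ℚ]`. -/
noncomputable def logDisc (L : Type) [Field L] [NumberField L] : ℝ :=
  Real.log |(discr L : ℝ)| / Module.finrank ℚ L

/-- `max (0, - log max_l c_l)` -/
noncomputable def minusLog {s : ℕ} (c : Fin (s + 1) → ℝ) : ℝ := max 0 (-Real.log (⨆ l, c l))

/-- `∑_{v ∈ S ∪ {∞}} λ(P, v)`: the sum over the infinite places `w` (with `mult w = [L_w : ℝ]`) and the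
primes `w` above the primes of `S` of the local heights `max (0, - log max_l |f_l(P)|_w)`, divided by
`[L : ℚ]`. The absolute values are normalised such that the product formula holds:
`|b|_w = N(w) ^ (- w(b))`. -/
noncomputable def proximity (S : Finset ℕ) {A : Type} [CommRing A] {s : ℕ} (f : Fin (s + 1) → A)
    {L : Type} [Field L] [NumberField L] (φ : A →+* L) : ℝ :=
  (∑ w : InfinitePlace L, (w.mult : ℝ) * minusLog (fun l => w (φ (f l))) +
    ∑ᶠ w ∈ {w : HeightOneSpectrum (𝓞 L) | ∃ p ∈ S, (p : 𝓞 L) ∈ w.asIdeal},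
      minusLog (fun l => FinitePlace.mk w (φ (f l)))) / Module.finrank ℚ L

/-- `q - 2 - (∑_j dim (A / √(t - a_j))) / N`, where `N` is the rank of `A` over `ℚ[t]`. -/
noncomputable def canonicalDegree (A : Type) [CommRing A] [Algebra ℚ A] [Algebra ℚ[X] A] {q : ℕ}
    (a : Fin q → ℚ) : ℝ :=
  q - 2 - (∑ j, (Module.finrank ℚ (A ⧸ (Ideal.span {linear A (a j)}).radical) : ℝ)) /
    Module.finrank ℚ[X] A

/-- `f` generates the ideal `I`, and `f_0` is a power of `∏_j (t - a_j)`. -/
def Generates {A : Type} [CommRing A] [Algebra ℚ[X] A] {q : ℕ} (a : Fin q → ℚ) (I : Ideal A)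
    {s : ℕ} (f : Fin (s + 1) → A) : Prop :=
  Ideal.span (Set.range f) = I ∧ ∃ k : ℕ, 1 ≤ k ∧ f 0 = (∏ j, linear A (a j)) ^ k

/-- `I⁻ = (I : √I)`: the ideal of the `b` with `b r ∈ I` for all `r ∈ √I`. -/
def multiplier {A : Type} [CommRing A] (I : Ideal A) : Ideal A := I.colon (I.radical : Set A)

/-- The image of the rational point `x = (p, q)` of the line under the transformation `h`. -/
def image (h : Matrix (Fin 2) (Fin 2) ℤ) (x : ℤ × ℤ) : ℚ :=
  ((h 0 0 * x.1 + h 0 1 * x.2 : ℤ) : ℚ) / ((h 1 0 * x.1 + h 1 1 * x.2 : ℤ) : ℚ)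

/-- The inequality on all curves with at most `Q` branch points, at all points above the rational
points near `z`. -/
def Vojta (Q : ℕ) (θ z : ℝ) : Prop :=
  ∃ ρ : ℝ, 0 < ρ ∧
    ∀ (A : Type) [CommRing A] [IsDedekindDomain A] [Algebra ℚ A] [Algebra ℚ[X] A]
      [IsScalarTower ℚ ℚ[X] A] [Module.Finite ℚ[X] A] [FaithfulSMul ℚ[X] A]
      (q : ℕ) (a : Fin q → ℚ), q ≤ Q → Function.Injective a →
    ∀ (I : Ideal A) (m r : ℕ) (f : Fin (m + 1) → A) (g : Fin (r + 1) → A),
      Generates a I f → Generates a (multiplier I) g →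
    ∀ h : Matrix (Fin 2) (Fin 2) ℤ, h.det ≠ 0 →
    ∃ c : ℝ, ∀ x ∈ Near ρ z, h 1 0 * x.1 + h 1 1 * x.2 ≠ 0 → (∀ j, image h x ≠ a j) →
    ∀ (L : Type) [Field L] [NumberField L] (φ : A →+* L) (S : Finset ℕ),
      φ (algebraMap ℚ[X] A X) = (image h x : L) → (∀ p ∈ S, p.Prime) →
      canonicalDegree A a * Height.logHeight₁ (image h x) + proximity S f φ - proximity S g φ +
        θ * Height.logHeight₁ (image h x) ≤ logDisc L + ∑ p ∈ S, Real.log p + c

/-- **Vojta's conjecture with multiplier ideals on all curves, for all points above the rational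
points near the elements of `E_𝒜`.** -/
theorem result :
    (∀ (𝒜 : Set ℕ) (n : ℕ), (∀ a ∈ 𝒜, 1 ≤ a ∧ a ≤ n) →
      -- there are infinitely many rational points near `z`
      (∀ z ∈ EA 𝒜, ∀ ρ : ℝ, 0 < ρ → (Near ρ z).Infinite) ∧
      (1 / 2 < δ 𝒜 →
        -- the exceptional set has a smaller dimension
        (∀ (Q : ℕ) (θ : ℝ), 2 ≤ Q → 0 ≤ θ → θ < 2 →
          dimH {z | z ∈ EA 𝒜 ∧ ¬ Vojta Q θ z} ≤
            ENNReal.ofReal (δ 𝒜 - (2 - θ) / Q * (δ 𝒜 - 1 / 2))) ∧
        -- almost all `z`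
        Measure.hausdorffMeasure (δ 𝒜) {z | z ∈ EA 𝒜 ∧ ∃ (Q : ℕ) (θ : ℝ), θ < 2 ∧ ¬ Vojta Q θ z} =
          0)) ∧
    -- the dimension is larger than `1 / 2` for instance for `𝒜 = {1, 2, 3}`
    (∀ (𝒜 : Set ℕ) (n : ℕ), (∀ a ∈ 𝒜, 1 ≤ a ∧ a ≤ n) → ∀ F : Finset ℕ, (∀ a ∈ F, a ∈ 𝒜) →
      1 < ∑ a ∈ F, 1 / ((a : ℝ) + 1) → 1 / 2 < δ 𝒜) ∧
    1 / 2 < δ {1, 2, 3} := by
  classical
  -- the inequality follows from the truncated inequality near `z`
  have key : ∀ (Q : ℕ) (θ ε z : ℝ), 0 ≤ ε → ε ≤ 1 → ε * Q < 2 - θ → Pool.Agent.W5h9.GC.Vojta ε z →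
      Vojta Q θ z := by
    intro Q θ ε z hε0 hε1 hεQ hV
    obtain ⟨ρ, hρ, hV⟩ := Pool.Agent.W5h9.GC.curves hε1 hV
    refine ⟨ρ, hρ, ?_⟩
    intro A _ _ _ _ _ _ _ q a hq ha I m r f g hf hg h hh
    -- generators of the radicals
    have hmem : ∀ j, linear A (a j) ∈ (Ideal.span {linear A (a j)}).radical := fun j =>
      Ideal.le_radical (Ideal.mem_span_singleton_self _)
    choose u y hy0 hyI using fun j => Pool.Agent.W5h9.GC.exists_family _ _ (hmem j)
    have hyr : ∀ j l, y j l ∈ (Ideal.span {linear A (a j)}).radical := by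
      intro j l
      rw [← hyI j]
      exact Ideal.subset_span ⟨l, rfl⟩
    obtain ⟨hfI, k, hk, hf0⟩ := hf
    obtain ⟨hgI, k', hk', hg0⟩ := hg
    obtain ⟨c₁, hc₁⟩ := hV A q a u y h (2 - θ - ε * Q) ha hy0 hyr hh (by linarith)
    obtain ⟨c₂, hc₂⟩ := Pool.Agent.W5h9.GC.ideal_bound A a f g y k k' hf0 hg0 hy0 (by
      intro i l
      rw [hfI]
      have h1 : g i ∈ multiplier I := by
        rw [← hgI]
        exact Ideal.subset_span ⟨i, rfl⟩
      have h2 : ∏ j, y j (l j) ∈ I.radical := by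
        choose n hn using fun j => hyr j (l j)
        have h3 : ∀ j, linear A (a j) ∣ y j (l j) ^ ∑ j, n j := fun j =>
          (Ideal.mem_span_singleton.1 (hn j)).trans
            (pow_dvd_pow _ (Finset.single_le_sum (fun _ _ => Nat.zero_le _) (Finset.mem_univ j)))
        have h4 : f 0 ∣ (∏ j, y j (l j)) ^ ((∑ j, n j) * k) := by
          have h5 : ∏ j, linear A (a j) ∣ (∏ j, y j (l j)) ^ ∑ j, n j := by
            rw [← Finset.prod_pow]
            exact Finset.prod_dvd_prod_of_dvd _ _ fun j _ => h3 j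
          rw [hf0, pow_mul]
          exact pow_dvd_pow_of_dvd h5 k
        have h5 : f 0 ∈ I := by
          rw [← hfI]
          exact Ideal.subset_span ⟨0, rfl⟩
        exact ⟨_, Ideal.mem_of_dvd I h4 h5⟩
      exact Submodule.mem_colon.1 h1 _ h2)
    refine ⟨c₁ + c₂, ?_⟩
    intro x hx hx0 hne L _ _ φ S hφ hS
    have hφ' : φ (algebraMap ℚ[X] A X) = algebraMap ℚ L (image h x) := by
      rw [hφ]
      exact (eq_ratCast (algebraMap ℚ L) _).symm
    have h1 := hc₁ x hx hx0 hne L φ S hS hφ'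
    have hW : {w : HeightOneSpectrum (𝓞 L) | ∃ p ∈ S, (p : 𝓞 L) ∈ w.asIdeal}.Finite :=
      Pool.Agent.TH905.VF.above_finite L S hS
    have hne' : ∀ j, φ (Pool.Agent.W5h9.GC.tma A (a j)) ≠ 0 := by
      intro j h0
      rw [Pool.Agent.W5h9.GC.φ_tma] at h0
      have h2 : φ (Pool.Agent.W223.AC.tt A) = ((image h x : ℚ) : L) := hφ
      rw [h2, sub_eq_zero] at h0
      exact hne j (by exact_mod_cast h0)
    have h2 := hc₂ L φ hW.toFinset hne'
    set n : ℝ := (Module.finrank ℚ L : ℝ) with hn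
    have hn0 : 0 < n := by
      rw [hn]
      exact_mod_cast Module.finrank_pos
    have hpf : ∀ (s : ℕ) (f : Fin (s + 1) → A), proximity S f φ =
        (∑ w : InfinitePlace L, (w.mult : ℝ) * Pool.Agent.TH905.VF.AC.lamI f φ w +
          ∑ w ∈ hW.toFinset, Pool.Agent.TH905.VF.AC.lamF f φ w) / n := by
      intro s f
      unfold proximity
      rw [finsum_mem_eq_finite_toFinset_sum _ hW]
      rfl
    have hpy : Pool.Agent.TH905.VF.proxC (K := ℚ) (Pool.Agent.TH905.VF.above_finite ℚ S hS).toFinset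
        (n := 1) (q := fun _ => q) (A := fun _ => A) (u := fun _ => u) (fun _ => y) (fun _ => φ) =
        (∑ w : InfinitePlace L, (w.mult : ℝ) * ∑ j, Pool.Agent.TH905.VF.AC.lamI (y j) φ w +
          ∑ w ∈ hW.toFinset, ∑ j, Pool.Agent.TH905.VF.AC.lamF (y j) φ w) / n := by
      unfold Pool.Agent.TH905.VF.proxC
      rw [Pool.Agent.TH905.VF.above_eq S hS, finsum_mem_eq_finite_toFinset_sum _ hW]
      simp only [Pool.Agent.TH905.VF.lI, Pool.Agent.TH905.VF.lF, Finset.univ_unique,
        Finset.sum_singleton]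
      rfl
    have hld : Pool.Agent.TH905.VF.ld ℚ L = logDisc L := by
      unfold Pool.Agent.TH905.VF.ld logDisc
      rw [NumberField.discr_rat]
      simp
    have h3 : proximity S f φ - proximity S g φ ≤
        Pool.Agent.TH905.VF.proxC (K := ℚ) (Pool.Agent.TH905.VF.above_finite ℚ S hS).toFinset
        (n := 1) (q := fun _ => q) (A := fun _ => A) (u := fun _ => u) (fun _ => y) (fun _ => φ) +
          c₂ := by
      rw [hpf, hpf, hpy, ← sub_div, div_add' _ _ _ hn0.ne']
      apply div_le_div_of_nonneg_right _ hn0.le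
      simp only [mul_sub, Finset.sum_sub_distrib] at h2
      linarith
    have h4 : (∑ j, (Module.finrank ℚ (A ⧸ Ideal.span (Set.range (y j))) : ℝ)) =
        ∑ j, (Module.finrank ℚ (A ⧸ (Ideal.span {linear A (a j)}).radical) : ℝ) :=
      Finset.sum_congr rfl fun j _ => by rw [hyI j]
    have h5 : Pool.Agent.W5h9.GC.mob h x = image h x := rfl
    rw [h4, h5, hld] at h1
    have hH : 0 ≤ Height.logHeight₁ (image h x) := Height.zero_le_logHeight₁ _
    have h6 : ε * (q : ℝ) ≤ ε * Q := by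
      have : (q : ℝ) ≤ Q := by exact_mod_cast hq
      gcongr
    have h7 := mul_le_mul_of_nonneg_right h6 hH
    unfold canonicalDegree
    nlinarith
  refine ⟨fun 𝒜 n hA => ⟨fun z hz ρ hρ => Pool.Agent.W5h9.GC.near_infinite hA hz hρ.le,
    fun hδ => ⟨?_, ?_⟩⟩, ?_, ?_⟩
  · intro Q θ hQ hθ0 hθ2
    have hQ' : (2 : ℝ) ≤ Q := by exact_mod_cast hQ
    set κ : ℝ := (2 - θ) / Q with hκ
    have hκ0 : 0 < κ := div_pos (by linarith) (by linarith)
    have hκ1 : κ ≤ 1 := by
      rw [hκ, div_le_one (by linarith)]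
      linarith
    have h1 : ∀ ε : ℝ, 0 < ε → ε < κ → dimH {z | z ∈ EA 𝒜 ∧ ¬ Vojta Q θ z} ≤
        ENNReal.ofReal (δ 𝒜 - ε * (δ 𝒜 - 1 / 2)) := by
      intro ε hε0 hεκ
      refine le_trans (dimH_mono ?_) (Pool.Agent.W5h9.GC.dim_Vojta hA hδ hε0 (by linarith))
      rintro z ⟨hz, hnv⟩
      refine ⟨hz, fun hV => hnv (key Q θ ε z hε0.le (by linarith) ?_ hV)⟩
      rw [hκ, lt_div_iff₀ (by linarith)] at hεκ
      exact hεκ
    have h2 : Filter.Tendsto (fun ε : ℝ => ENNReal.ofReal (δ 𝒜 - ε * (δ 𝒜 - 1 / 2)))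
        (nhdsWithin κ (Set.Iio κ)) (nhds (ENNReal.ofReal (δ 𝒜 - κ * (δ 𝒜 - 1 / 2)))) := by
      apply ENNReal.tendsto_ofReal
      apply Filter.Tendsto.mono_left _ nhdsWithin_le_nhds
      exact (by fun_prop : Continuous fun ε : ℝ => δ 𝒜 - ε * (δ 𝒜 - 1 / 2)).tendsto κ
    refine ge_of_tendsto h2 ?_
    filter_upwards [Ioo_mem_nhdsLT hκ0] with ε hε
    exact h1 ε hε.1 hε.2
  · refine measure_mono_null ?_ (Pool.Agent.W5h9.GC.null_Vojta hA hδ)
    rintro z ⟨hz, Q, θ, hθ, hnv⟩
    have hQ : (0 : ℝ) ≤ Q := Nat.cast_nonneg _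
    have hQ1 : (0 : ℝ) < (Q : ℝ) + 1 := by linarith
    have h0 : 0 < min 1 ((2 - θ) / (Q + 1)) := lt_min one_pos (div_pos (by linarith) hQ1)
    refine ⟨hz, min 1 ((2 - θ) / (Q + 1)), h0, fun hV =>
      hnv (key Q θ _ z h0.le (min_le_left _ _) ?_ hV)⟩
    have h1 : min 1 ((2 - θ) / ((Q : ℝ) + 1)) * ((Q : ℝ) + 1) ≤ 2 - θ := by
      calc min 1 ((2 - θ) / ((Q : ℝ) + 1)) * ((Q : ℝ) + 1) ≤ (2 - θ) / ((Q : ℝ) + 1) * ((Q : ℝ) + 1) := by
            gcongr
            exact min_le_right _ _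
        _ = 2 - θ := div_mul_cancel₀ _ hQ1.ne'
    nlinarith
  · intro 𝒜 n hA F hF h
    exact Pool.Agent.W5h9.GC.half_lt hA hF h
  · refine Pool.Agent.W5h9.GC.half_lt (A := 3) (F := {1, 2, 3}) ?_ ?_ ?_
    · intro a ha
      simp only [Set.mem_insert_iff, Set.mem_singleton_iff] at ha
      omega
    · intro a ha
      simpa using ha
    · norm_num

end Pool.Agent.Results.MP_8865d3_nt.AllCurvesNearFractals
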