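import Mathlib
import Pool.Agent.W5h77.VM.Main

set_option autoImplicit false

/-!
# Vojta's conjecture with multiplier ideals for all hyperplane arrangements and all sets of places

`X = ℙ^N` over a number field `k` (for instance `k = ℚ`), `S` is an arbitrary finite set of places of
`k`, and the points are all points of `X` over `k`. Fix finitely many hyperplanes `L l = 0` with
coefficients in any finite extension `K` of `k`, in any position (they may be conjugate over `k`).
There is one finite set `Z` of hyperplanes over `k`, depending only on the `L l`, such that the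
inequality of the conjecture holds off `Z` for ALL nonzero ideal sheaves `I` generated by forms over
`k` which are products of the `L l` over `K`, ALL `S` and ALL `ε > 0`.

Examples of `I`: ideals of arbitrary unions and intersections of powers of linear subspaces which
are generated by products of linear forms, divisors of products of linear forms (norm forms)
without the normal crossings condition, and their products and sums.

The multiplier ideal `I⁻` is defined by its valuative criterion: a local section `u` is in `I⁻` if and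
only if `w(u) + A(w) ≥ w(I)` (written additively) for all valuations `w`, where `A(w)` is the log
discrepancy. Here `exp (-A(w))` is the norm of a generator of the canonical sheaf at the centre of `w`
in the lattice of logarithmic differential forms: the infimum of the `r` such that the generator is
`∑ g_s dlog p_{s,1} ∧ … ∧ dlog p_{s,N}` with `|g_s|_w ≤ r` (for a divisor `E` over `X` this is
`A(E) = 1 + ord_E(K_{X'/X})`). As `I⁻` is coherent it is generated by finitely many forms `u_i`.

The proof combines Vojta's refinement of the subspace theorem (formalised in `Pool.Agent.R405.SchV`)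
at all places of `S` with an estimate of `λ_I - λ_{I⁻}` at each place by the local heights of a basis
of linear forms of the arrangement which is minimal at the point.
-/

namespace Pool.Agent.Results.MP_8865d3_nt.AllPlacesArrangements

open MvPolynomial NumberField IsDedekindDomain

/-- The places of a number field `k`. -/
abbrev Place (k : Type) [Field k] [NumberField k] : Type :=
  InfinitePlace k ⊕ HeightOneSpectrum (𝓞 k)

/-- The local height `d_v λ_I(x, v)` with `d_v = [k_v : ℚ_v] / [k : ℚ]` at the place `v` of `k`, of the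
ideal sheaf `I` on the projective space generated by the forms `F j` of degrees `d j`:
`-d_v log max_j (|F_j(x)|_v / max_i |x_i|_v ^ (d_j))`. At a prime `p` the absolute value
`FinitePlace.mk p` is `c ↦ (N p) ^ (-ord_p c)`, which contains the factor `[k_v : ℚ_v]`. The local
height at a place of `ℚ` is the sum of these over the places of `k` above it. -/
noncomputable def localHeight {k : Type} [Field k] [NumberField k] (v : Place k) {n a : ℕ}
    (d : Fin a → ℕ) (F : Fin a → MvPolynomial (Fin n) k) (x : Fin n → k) : ℝ :=
  match v with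
  | Sum.inl w => w.mult / (Module.finrank ℚ k : ℝ) *
      (-Real.log (⨆ j, w (eval x (F j)) / (⨆ i, w (x i)) ^ d j))
  | Sum.inr p => 1 / (Module.finrank ℚ k : ℝ) *
      (-Real.log (⨆ j, FinitePlace.mk p (eval x (F j)) / (⨆ i, FinitePlace.mk p (x i)) ^ d j))

/-- The absolute logarithmic height. -/
noncomputable def height {k : Type} [Field k] [NumberField k] {n : ℕ} (x : Fin n → k) : ℝ :=
  Height.logHeight x / Module.finrank ℚ k

/-- The form `F` over `k` is a product of `d` of the linear forms `∑ L_j X_j` over `K`, times a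
constant of `K`. -/
def IsProduct {k K : Type} [Field k] [Field K] [Algebra k K] {n : ℕ} {ι : Type}
    (L : ι → Fin n → K) (d : ℕ) (F : MvPolynomial (Fin n) k) : Prop :=
  ∃ (c : K) (σ : Fin d → ι), map (algebraMap k K) F = C c * ∏ s, ∑ j, C (L (σ s) j) * X j

/-- The valuations of the function field of the projective space over `k` (real, written
multiplicatively, trivial on `k`), as functions on all forms: `w(P)` is the value of `P / X_i ^ deg P`
for an `i` with maximal `w(X_i)`. -/
def IsPlace {k : Type} [Field k] {n : ℕ} (w : Valuation (MvPolynomial (Fin n) k) NNReal) : Prop :=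
  (∀ c : k, c ≠ 0 → w (C c) = 1) ∧ (∀ i, w (X i) ≤ 1) ∧ (∃ i, w (X i) = 1) ∧
    ∀ P : MvPolynomial (Fin n) k, P ≠ 0 → w P ≠ 0

/-- The norm of the canonical form is at most `r`: in homogeneous coordinates
`dX_0 ∧ … ∧ dX_N = ∑_s (h_s / q) dlog p_{s,0} ∧ … ∧ dlog p_{s,N}` with `w(h_s / q) ≤ r` and nonzero
forms `p_{s,j}`. -/
def CanonicalNormLE {k : Type} [Field k] {n : ℕ} (w : Valuation (MvPolynomial (Fin n) k) NNReal)
    (r : NNReal) : Prop :=
  ∃ (T e : ℕ) (q : MvPolynomial (Fin n) k) (h : Fin T → MvPolynomial (Fin n) k)
    (p : Fin T → Fin n → MvPolynomial (Fin n) k),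
    q.IsHomogeneous e ∧ q ≠ 0 ∧
    (∀ s, (h s).IsHomogeneous (e + n) ∧ w (h s) ≤ r * w q) ∧
    (∀ s j, (∃ d, (p s j).IsHomogeneous d) ∧ p s j ≠ 0) ∧
    (1 : FractionRing (MvPolynomial (Fin n) k)) =
      ∑ s, algebraMap _ (FractionRing (MvPolynomial (Fin n) k)) (h s) / algebraMap _ _ q *
        (Matrix.of fun i j => algebraMap _ (FractionRing (MvPolynomial (Fin n) k))
          (pderiv i (p s j)) / algebraMap _ _ (p s j)).det

/-- The form `u` is a section of (a twist of) the multiplier ideal `I⁻` of the ideal `I` generated by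
the `F j`: for all valuations `w`, `w(u) exp (-A(w)) ≤ w(I) = max_j w(F_j)`. -/
def InMultiplierIdeal {k : Type} [Field k] {n a : ℕ} (F : Fin a → MvPolynomial (Fin n) k)
    (u : MvPolynomial (Fin n) k) : Prop :=
  ∀ w : Valuation (MvPolynomial (Fin n) k) NNReal, IsPlace w →
    ∃ r : NNReal, (∀ r' : NNReal, r < r' → CanonicalNormLE w r') ∧ w u * r ≤ ⨆ j, w (F j)

theorem localHeight_eq {k : Type} [Field k] [NumberField k] (v : Place k) {n a : ℕ}
    (d : Fin a → ℕ) (F : Fin a → MvPolynomial (Fin n) k) (x : Fin n → k) :
    localHeight v d F x = Pool.Agent.W180.OP.wt v *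
      (-Real.log (⨆ j, Pool.Agent.W180.OP.av v (aeval x (F j)) /
        Pool.Agent.W180.OP.nrm (Pool.Agent.W180.OP.av v) x ^ d j)) /
          (Module.finrank ℚ k : ℝ) := by
  rcases v with w | p
  · have h1 : ∀ P : MvPolynomial (Fin n) k, Pool.Agent.W180.OP.av (Sum.inl w : Place k)
        (aeval x P) = w (eval x P) := fun P => rfl
    have h2 : Pool.Agent.W180.OP.nrm (Pool.Agent.W180.OP.av (Sum.inl w : Place k)) x =
        ⨆ i, w (x i) := rfl
    simp only [h1, h2]
    show (w.mult : ℝ) / (Module.finrank ℚ k : ℝ) * _ = (w.mult : ℝ) * _ / _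
    ring
  · have h1 : ∀ P : MvPolynomial (Fin n) k, Pool.Agent.W180.OP.av (Sum.inr p : Place k)
        (aeval x P) = FinitePlace.mk p (eval x P) := fun P => rfl
    have h2 : Pool.Agent.W180.OP.nrm (Pool.Agent.W180.OP.av (Sum.inr p : Place k)) x =
        ⨆ i, FinitePlace.mk p (x i) := rfl
    simp only [h1, h2]
    show 1 / (Module.finrank ℚ k : ℝ) * _ = 1 * _ / _
    ring

/-- **Vojta's conjecture with multiplier ideals for all hyperplane arrangements, all finite sets of
places and all points over a number field.** Given finitely many linear forms `L l ≠ 0` in `N + 1`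
variables over a finite extension `K` of the number field `k`, there is a finite set `Z` of
hyperplanes over `k` such that: for all nonzero ideal sheaves `I` generated by forms `F j` over `k`
which are products of the `L l`, all families of forms `u i` in `I⁻`, all finite sets `S` of places of
`k` and all `ε > 0` there is a constant `C` with
`h_K(x) + ∑_{v ∈ S} λ_I(x, v) - ∑_{v ∈ S} λ_{(u)}(x, v) ≤ ε h(x) + C` for all points `x` over `k` off
`Z` which are not common zeros of the `u i`. (If the `u i` generate `I⁻`, then
`λ_{(u)} = λ_{I⁻}`.) -/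
theorem result (k : Type) [Field k] [NumberField k] (K : Type) [Field K] [NumberField K]
    [Algebra k K] (N : ℕ) (ι : Type) [Finite ι] (L : ι → Fin (N + 1) → K) (hL : ∀ l, L l ≠ 0) :
    ∃ Z : Finset (Fin (N + 1) → k), (∀ z ∈ Z, z ≠ 0) ∧
      ∀ (a : ℕ) (F : Fin a → MvPolynomial (Fin (N + 1)) k) (d : Fin a → ℕ),
        (∀ j, IsProduct L (d j) (F j)) → (∃ j, F j ≠ 0) →
      ∀ (b : ℕ) (u : Fin b → MvPolynomial (Fin (N + 1)) k) (e : Fin b → ℕ),
        (∀ i, (u i).IsHomogeneous (e i) ∧ InMultiplierIdeal F (u i)) →
      ∀ (S : Finset (Place k)) (ε : ℝ), 0 < ε → ∃ C : ℝ, ∀ x : Fin (N + 1) → k, x ≠ 0 →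
        (∀ z ∈ Z, ∑ j, z j * x j ≠ 0) → (∃ i, eval x (u i) ≠ 0) →
        -(N + 1) * height x + ∑ v ∈ S, localHeight v d F x - ∑ v ∈ S, localHeight v e u x ≤
          ε * height x + C := by
  classical
  have := Fintype.ofFinite ι
  obtain ⟨Z, hZ, hmain⟩ := Pool.Agent.W5h77.VM.main (k := k) K (N + 1) (by omega) L hL
  refine ⟨Z, hZ, fun a F d hF hne b u e hu S ε hε => ?_⟩
  choose c σ hfac using hF
  obtain ⟨C, hC⟩ := hmain a F c d σ hfac hne b u e (fun i => (hu i).1) (fun i => (hu i).2) S ε hε
  have hD : (0 : ℝ) < Module.finrank ℚ k := Nat.cast_pos.2 Module.finrank_pos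
  refine ⟨C / Module.finrank ℚ k, fun x hx hZx hux => ?_⟩
  have h1 := hC x hx hZx hux
  have h2 : ∑ v ∈ S, localHeight v d F x - ∑ v ∈ S, localHeight v e u x =
      (∑ v ∈ S, Pool.Agent.W180.OP.wt v *
        (-Real.log (⨆ j, Pool.Agent.W180.OP.av v (aeval x (F j)) /
          Pool.Agent.W180.OP.nrm (Pool.Agent.W180.OP.av v) x ^ d j)
        -(-Real.log (⨆ j, Pool.Agent.W180.OP.av v (aeval x (u j)) /
          Pool.Agent.W180.OP.nrm (Pool.Agent.W180.OP.av v) x ^ e j)))) /
            (Module.finrank ℚ k : ℝ) := by
    rw [← Finset.sum_sub_distrib, Finset.sum_div]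
    refine Finset.sum_congr rfl fun v _ => ?_
    rw [localHeight_eq, localHeight_eq]
    ring
  have h3 : ∑ v ∈ S, localHeight v d F x - ∑ v ∈ S, localHeight v e u x ≤
      ((((N + 1 : ℕ) : ℝ) + ε) * Height.logHeight x + C) / (Module.finrank ℚ k : ℝ) := by
    rw [h2]
    exact div_le_div_of_nonneg_right h1 hD.le
  have h4 : ((((N + 1 : ℕ) : ℝ) + ε) * Height.logHeight x + C) / (Module.finrank ℚ k : ℝ) =
      (N + 1 + ε) * height x + C / Module.finrank ℚ k := by
    unfold height
    push_cast
    ring
  rw [h4] at h3
  linarith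

end Pool.Agent.Results.MP_8865d3_nt.AllPlacesArrangements
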