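import Pool.Agent.W5h24.EP.Curves
import Pool.Agent.W5h9.GC.CovMain

/-!
# Vojta's conjecture with multiplier ideals on all curves, near every rational point of the line

Let `X` be a smooth projective curve over `ℚ` and `t : X → ℙ¹` a finite map of degree `N` which is
unramified outside the fibres over rational points `a_1, …, a_q ≠ ∞`. By Belyi's theorem every curve
has such a map with `q = 3`, and a given finite set of closed points of `X` can be assumed to lie in
these fibres. Let `A` be the ring of functions on `X` with poles only over `∞`: a Dedekind domain,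
finite over `ℚ[t]`. By the formula of Riemann and Hurwitz
`(deg K_X) / N = q - 2 - (∑_j dim (A / √(t - a_j))) / N =: canonicalDegree`, so
`canonicalDegree * h(t(P))` is a height `h_{K_X}(P)`, up to an arbitrarily small multiple of `h(t(P))`
(up to `O(1)` if `K_X` is a rational multiple of the divisor of poles of `t`, numerically it always is).
An ideal sheaf `I ≠ 0` on `X` with support in the fibres over the `a_j` is an ideal `I` of `A` with
`∏_j (t - a_j) ^ k ∈ I`. If `I` is the product of the `𝔪 ^ (n_𝔪)`, then the ideal `I⁻` of the problem is the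
product of the `𝔪 ^ (n_𝔪 - 1)` over the `𝔪` with `n_𝔪 ≥ 1`; it is the quotient `(I : √I)`. If the first of
the generators `f_0, …, f_m` of `I` is a power of `∏_j (t - a_j)`, which has poles at all points over
`∞`, then `max (0, - log max_l |f_l(P)|_v)` is the local height `λ_I(P, v)`, up to `O(1)`.

Let `B ≥ 0`, `θ < 2` and `Q` be given, and if `B ≥ 5` let `Q (B - 3) < (2 - θ) (B + 1)`; for `θ = 0` and
`Q = 3` the condition is `B < 11`, for `Q = 4` it is `B < 7`. We construct a set `𝒩` of rational points of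
the line such that

* for all large `D` and EVERY rational point `x` of the line of height `H(x) ≤ D ^ B` the points `g x`
  are in `𝒩` for all `g ∈ SL₂(ℤ)` with entries of absolute value at most `D`, except for a proportion of
  at most `D ^ (-δ)` of these `g`; there are at least `D² / 2` of these `g`, while `H(g x)` can be as
  large as `D ^ (B + 1)`, up to a constant;
* for ALL curves `X`, ALL maps `t` as above with `q ≤ Q`, ALL ideals `I`, ALL finite sets `S` of primes and
  all fixed linear fractional transformations `h` over `ℚ` the inequality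
  `h_{K_X}(P) + ∑_{v ∈ S ∪ {∞}} λ_I(P, v) - ∑_{v ∈ S ∪ {∞}} λ_{I⁻}(P, v) + θ h(t(P)) ≤
    d(P) + ∑_{p ∈ S} log p + c` holds for ALL points `P` of `X` with `t(P) = h(y)`, `y ∈ 𝒩`; these `P` have
  degree at most `N`. The constant `c` does not depend on `P` and `S`.

For `θ = 0` this is the inequality of the problem for these `P`, even without the term `ε h_A(P)`.
-/

set_option autoImplicit false

namespace Pool.Agent.Results.MP_8865d3_nt.EveryPointOfTheLine

open Polynomial NumberField IsDedekindDomain Filter Matrix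

/-- The function `t - a`. -/
noncomputable def linear (A : Type) [CommRing A] [Algebra ℚ[X] A] (a : ℚ) : A :=
  algebraMap ℚ[X] A X - algebraMap ℚ[X] A (C a)

/-- The logarithmic discriminant `log |disc L| / [L : ℚ]`. -/
noncomputable def logDisc (L : Type) [Field L] [NumberField L] : ℝ :=
  Real.log |(discr L : ℝ)| / Module.finrank ℚ L

/-- `max (0, - log max_l c_l)` -/
noncomputable def minusLog {s : ℕ} (c : Fin (s + 1) → ℝ) : ℝ := max 0 (-Real.log (⨆ l, c l))

/-- `∑_{v ∈ S ∪ {∞}} λ(P, v)`: the sum over the infinite places `w` (with `mult w = [L_w : ℝ]`) and the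
primes `w` above the primes of `S` of the local heights `max (0, - log max_l |f_l(P)|_w)`, divided by
`[L : ℚ]`. The absolute values are normalised such that the product formula holds:
`|b|_w = N(w) ^ (- w(b))`. -/
noncomputable def proximity (S : Finset ℕ) {A : Type} [CommRing A] {s : ℕ} (f : Fin (s + 1) → A)
    {L : Type} [Field L] [NumberField L] (φ : A →+* L) : ℝ :=
  (∑ w : InfinitePlace L, (w.mult : ℝ) * minusLog (fun l => w (φ (f l))) +
    ∑ᶠ w ∈ {w : HeightOneSpectrum (𝓞 L) | ∃ p ∈ S, (p : 𝓞 L) ∈ w.asIdeal},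
      minusLog (fun l => FinitePlace.mk w (φ (f l)))) / Module.finrank ℚ L

/-- `q - 2 - (∑_j dim (A / √(t - a_j))) / N`, where `N` is the rank of `A` over `ℚ[t]`. -/
noncomputable def canonicalDegree (A : Type) [CommRing A] [Algebra ℚ A] [Algebra ℚ[X] A] {q : ℕ}
    (a : Fin q → ℚ) : ℝ :=
  q - 2 - (∑ j, (Module.finrank ℚ (A ⧸ (Ideal.span {linear A (a j)}).radical) : ℝ)) /
    Module.finrank ℚ[X] A

/-- `f` generates the ideal `I`, and `f_0` is a power of `∏_j (t - a_j)`. -/
def Generates {A : Type} [CommRing A] [Algebra ℚ[X] A] {q : ℕ} (a : Fin q → ℚ) (I : Ideal A)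
    {s : ℕ} (f : Fin (s + 1) → A) : Prop :=
  Ideal.span (Set.range f) = I ∧ ∃ k : ℕ, 1 ≤ k ∧ f 0 = (∏ j, linear A (a j)) ^ k

/-- `I⁻ = (I : √I)`: the ideal of the `b` with `b r ∈ I` for all `r ∈ √I`. -/
def multiplier {A : Type} [CommRing A] (I : Ideal A) : Ideal A := I.colon (I.radical : Set A)

/-- The image of the rational point `x = (p, q)` of the line under the transformation `h`. -/
def image (h : Matrix (Fin 2) (Fin 2) ℤ) (x : ℤ × ℤ) : ℚ :=
  ((h 0 0 * x.1 + h 0 1 * x.2 : ℤ) : ℚ) / ((h 1 0 * x.1 + h 1 1 * x.2 : ℤ) : ℚ)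

/-- The absolute logarithmic height of the point with the coprime coordinates `y`. -/
noncomputable def hgt (y : ℤ × ℤ) : ℝ := Real.log (max y.1.natAbs y.2.natAbs : ℕ)

/-- The image of the point `x` under `g`; coprime coordinates go to coprime coordinates. -/
def act (g : SpecialLinearGroup (Fin 2) ℤ) (x : ℤ × ℤ) : ℤ × ℤ :=
  (g 0 0 * x.1 + g 0 1 * x.2, g 1 0 * x.1 + g 1 1 * x.2)

/-- The matrices in `SL₂(ℤ)` with entries of absolute value at most `D`. -/
def Ball (D : ℕ) : Set (SpecialLinearGroup (Fin 2) ℤ) := {g | ∀ i j, |g i j| ≤ (D : ℤ)}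

/-- The inequality on all curves with at most `Q` branch points, at all points above the points
in `𝒩`. -/
def Vojta (Q : ℕ) (θ : ℝ) (𝒩 : Set (ℤ × ℤ)) : Prop :=
  ∀ (A : Type) [CommRing A] [IsDedekindDomain A] [Algebra ℚ A] [Algebra ℚ[X] A]
    [IsScalarTower ℚ ℚ[X] A] [Module.Finite ℚ[X] A] [FaithfulSMul ℚ[X] A]
    (q : ℕ) (a : Fin q → ℚ), q ≤ Q → Function.Injective a →
  ∀ (I : Ideal A) (m r : ℕ) (f : Fin (m + 1) → A) (g : Fin (r + 1) → A),
    Generates a I f → Generates a (multiplier I) g →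
  ∀ h : Matrix (Fin 2) (Fin 2) ℤ, h.det ≠ 0 →
  ∃ c : ℝ, ∀ x ∈ 𝒩, h 1 0 * x.1 + h 1 1 * x.2 ≠ 0 → (∀ j, image h x ≠ a j) →
  ∀ (L : Type) [Field L] [NumberField L] (φ : A →+* L) (S : Finset ℕ),
    φ (algebraMap ℚ[X] A X) = (image h x : L) → (∀ p ∈ S, p.Prime) →
    canonicalDegree A a * Height.logHeight₁ (image h x) + proximity S f φ - proximity S g φ +
      θ * Height.logHeight₁ (image h x) ≤ logDisc L + ∑ p ∈ S, Real.log p + c

/-- the inequality follows from the truncated inequality on the set -/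
theorem key (Q : ℕ) (θ ε κ : ℝ) (hε0 : 0 ≤ ε) (hε1 : ε ≤ 1) (hκ : 0 < κ) (hεQ : ε * Q < 2 - θ) :
    Vojta Q θ {y | IsCoprime y.1 y.2 ∧ Pool.Agent.W5h9.GC.Good ε κ y} := by
  classical
  have hV := Pool.Agent.W5h24.EP.curves_set hε1
    (N := {y | IsCoprime y.1 y.2 ∧ Pool.Agent.W5h9.GC.Good ε κ y}) (fun x hx => hx.1)
    (Pool.Agent.W5h24.EP.truncated hε1 hκ)
  intro A _ _ _ _ _ _ _ q a hq ha I m r f g hf hg h hh
  -- generators of the radicals
  have hmem : ∀ j, linear A (a j) ∈ (Ideal.span {linear A (a j)}).radical := fun j =>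
    Ideal.le_radical (Ideal.mem_span_singleton_self _)
  choose u y hy0 hyI using fun j => Pool.Agent.W5h9.GC.exists_family _ _ (hmem j)
  have hyr : ∀ j l, y j l ∈ (Ideal.span {linear A (a j)}).radical := by
    intro j l
    rw [← hyI j]
    exact Ideal.subset_span ⟨l, rfl⟩
  obtain ⟨hfI, k, hk, hf0⟩ := hf
  obtain ⟨hgI, k', hk', hg0⟩ := hg
  obtain ⟨c₁, hc₁⟩ := hV A q a u y h (2 - θ - ε * Q) ha hy0 hyr hh (by linarith)
  obtain ⟨c₂, hc₂⟩ := Pool.Agent.W5h9.GC.ideal_bound A a f g y k k' hf0 hg0 hy0 (by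
    intro i l
    rw [hfI]
    have h1 : g i ∈ multiplier I := by
      rw [← hgI]
      exact Ideal.subset_span ⟨i, rfl⟩
    have h2 : ∏ j, y j (l j) ∈ I.radical := by
      choose n hn using fun j => hyr j (l j)
      have h3 : ∀ j, linear A (a j) ∣ y j (l j) ^ ∑ j, n j := fun j =>
        (Ideal.mem_span_singleton.1 (hn j)).trans
          (pow_dvd_pow _ (Finset.single_le_sum (fun _ _ => Nat.zero_le _) (Finset.mem_univ j)))
      have h4 : f 0 ∣ (∏ j, y j (l j)) ^ ((∑ j, n j) * k) := by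
        have h5 : ∏ j, linear A (a j) ∣ (∏ j, y j (l j)) ^ ∑ j, n j := by
          rw [← Finset.prod_pow]
          exact Finset.prod_dvd_prod_of_dvd _ _ fun j _ => h3 j
        rw [hf0, pow_mul]
        exact pow_dvd_pow_of_dvd h5 k
      have h5 : f 0 ∈ I := by
        rw [← hfI]
        exact Ideal.subset_span ⟨0, rfl⟩
      exact ⟨_, Ideal.mem_of_dvd I h4 h5⟩
    exact Submodule.mem_colon.1 h1 _ h2)
  refine ⟨c₁ + c₂, ?_⟩
  intro x hx hx0 hne L _ _ φ S hφ hS
  have hφ' : φ (algebraMap ℚ[X] A X) = algebraMap ℚ L (image h x) := by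
    rw [hφ]
    exact (eq_ratCast (algebraMap ℚ L) _).symm
  have h1 := hc₁ x hx hx0 hne L φ S hS hφ'
  have hW : {w : HeightOneSpectrum (𝓞 L) | ∃ p ∈ S, (p : 𝓞 L) ∈ w.asIdeal}.Finite :=
    Pool.Agent.TH905.VF.above_finite L S hS
  have hne' : ∀ j, φ (Pool.Agent.W5h9.GC.tma A (a j)) ≠ 0 := by
    intro j h0
    rw [Pool.Agent.W5h9.GC.φ_tma] at h0
    have h2 : φ (Pool.Agent.W223.AC.tt A) = ((image h x : ℚ) : L) := hφ
    rw [h2, sub_eq_zero] at h0
    exact hne j (by exact_mod_cast h0)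
  have h2 := hc₂ L φ hW.toFinset hne'
  set n : ℝ := (Module.finrank ℚ L : ℝ) with hn
  have hn0 : 0 < n := by
    rw [hn]
    exact_mod_cast Module.finrank_pos
  have hpf : ∀ (s : ℕ) (f : Fin (s + 1) → A), proximity S f φ =
      (∑ w : InfinitePlace L, (w.mult : ℝ) * Pool.Agent.TH905.VF.AC.lamI f φ w +
        ∑ w ∈ hW.toFinset, Pool.Agent.TH905.VF.AC.lamF f φ w) / n := by
    intro s f
    unfold proximity
    rw [finsum_mem_eq_finite_toFinset_sum _ hW]
    rfl
  have hpy : Pool.Agent.TH905.VF.proxC (K := ℚ) (Pool.Agent.TH905.VF.above_finite ℚ S hS).toFinset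
      (n := 1) (q := fun _ => q) (A := fun _ => A) (u := fun _ => u) (fun _ => y) (fun _ => φ) =
      (∑ w : InfinitePlace L, (w.mult : ℝ) * ∑ j, Pool.Agent.TH905.VF.AC.lamI (y j) φ w +
        ∑ w ∈ hW.toFinset, ∑ j, Pool.Agent.TH905.VF.AC.lamF (y j) φ w) / n := by
    unfold Pool.Agent.TH905.VF.proxC
    rw [Pool.Agent.TH905.VF.above_eq S hS, finsum_mem_eq_finite_toFinset_sum _ hW]
    simp only [Pool.Agent.TH905.VF.lI, Pool.Agent.TH905.VF.lF, Finset.univ_unique,
      Finset.sum_singleton]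
    rfl
  have hld : Pool.Agent.TH905.VF.ld ℚ L = logDisc L := by
    unfold Pool.Agent.TH905.VF.ld logDisc
    rw [NumberField.discr_rat]
    simp
  have h3 : proximity S f φ - proximity S g φ ≤
      Pool.Agent.TH905.VF.proxC (K := ℚ) (Pool.Agent.TH905.VF.above_finite ℚ S hS).toFinset
      (n := 1) (q := fun _ => q) (A := fun _ => A) (u := fun _ => u) (fun _ => y) (fun _ => φ) +
        c₂ := by
    rw [hpf, hpf, hpy, ← sub_div, div_add' _ _ _ hn0.ne']
    apply div_le_div_of_nonneg_right _ hn0.le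
    simp only [mul_sub, Finset.sum_sub_distrib] at h2
    linarith
  have h4 : (∑ j, (Module.finrank ℚ (A ⧸ Ideal.span (Set.range (y j))) : ℝ)) =
      ∑ j, (Module.finrank ℚ (A ⧸ (Ideal.span {linear A (a j)}).radical) : ℝ) :=
    Finset.sum_congr rfl fun j _ => by rw [hyI j]
  have h5 : Pool.Agent.W5h9.GC.mob h x = image h x := rfl
  rw [h4, h5, hld] at h1
  have hH : 0 ≤ Height.logHeight₁ (image h x) := Height.zero_le_logHeight₁ _
  have h6 : ε * (q : ℝ) ≤ ε * Q := by
    have : (q : ℝ) ≤ Q := by exact_mod_cast hq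
    gcongr
  have h7 := mul_le_mul_of_nonneg_right h6 hH
  unfold canonicalDegree
  nlinarith

/-- **Vojta's conjecture with multiplier ideals on all curves, near every rational point of the
line.** Let `B ≥ 0`, `θ < 2` and `Q`, and `B < 5` or `Q (B - 3) < (2 - θ) (B + 1)`. There are a set `𝒩` of
rational points of the line and `δ > 0` such that for all large `D` and EVERY rational point `x` of
the line of height `H(x) ≤ D ^ B` all but a proportion of at most `D ^ (-δ)` of the at least `D² / 2`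
matrices `g ∈ SL₂(ℤ)` with entries of absolute value at most `D` satisfy `g x ∈ 𝒩`, and the inequality
holds for all curves with at most `Q` branch points, all ideals and all points above `𝒩`. -/
theorem result (B θ : ℝ) (Q : ℕ) (hB : 0 ≤ B) (hθ : θ < 2)
    (hQ : B < 5 ∨ Q * (B - 3) < (2 - θ) * (B + 1)) :
    ∃ (𝒩 : Set (ℤ × ℤ)) (δ : ℝ), 0 < δ ∧ (∀ y ∈ 𝒩, IsCoprime y.1 y.2) ∧
      (∀ᶠ D : ℕ in atTop, (Ball D).Finite ∧ (D : ℝ) ^ 2 / 2 ≤ ((Ball D).ncard : ℝ) ∧
        ∀ x : ℤ × ℤ, IsCoprime x.1 x.2 → hgt x ≤ B * Real.log D →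
          (({g : SpecialLinearGroup (Fin 2) ℤ | g ∈ Ball D ∧ act g x ∉ 𝒩}.ncard : ℕ) : ℝ) ≤
            (D : ℝ) ^ (-δ) * (Ball D).ncard) ∧
      Vojta Q θ 𝒩 := by
  have hQ0 : (0 : ℝ) ≤ Q := Nat.cast_nonneg _
  obtain ⟨ε, hε0, hε1, hεQ, hs⟩ : ∃ ε : ℝ, 0 < ε ∧ ε ≤ 1 ∧ ε * Q < 2 - θ ∧
      Pool.Agent.W5h24.EP.Size B ε := by
    have hmin : ∀ t : ℝ, 0 < t → 0 < min 1 (t / (Q + 1)) := fun t ht =>
      lt_min one_pos (by positivity)
    have hmin2 : ∀ t : ℝ, 0 < t → min 1 (t / (Q + 1)) * Q < t := by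
      intro t ht
      have h1 := mul_le_mul_of_nonneg_right (min_le_right 1 (t / ((Q : ℝ) + 1))) hQ0
      have h2 : t / ((Q : ℝ) + 1) * Q < t := by
        rw [div_mul_eq_mul_div, div_lt_iff₀ (by positivity)]
        nlinarith
      linarith
    by_cases h5 : B < 5
    · exact ⟨min 1 ((2 - θ) / (Q + 1)), hmin _ (by linarith), min_le_left _ _,
        hmin2 _ (by linarith), Or.inl h5⟩
    · have h : Q * (B - 3) < (2 - θ) * (B + 1) := by
        rcases hQ with h | h
        · exact absurd h h5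
        · exact h
      have hB1 : 0 < B + 1 := by linarith
      -- the critical value
      obtain ⟨e, he⟩ : ∃ e, e = (B - 3) / (B + 1) := ⟨_, rfl⟩
      have he1 : e * (B + 1) = B - 3 := by rw [he]; field_simp
      have heQ : e * Q < 2 - θ := by
        have h1 : e * Q * (B + 1) < (2 - θ) * (B + 1) := by
          calc e * Q * (B + 1) = Q * (e * (B + 1)) := by ring
            _ = Q * (B - 3) := by rw [he1]
            _ < _ := h
        exact lt_of_mul_lt_mul_right h1 hB1.le
      have he0 : 0 < e := by rw [he]; exact div_pos (by linarith) hB1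
      have hel : e < 1 := by rw [he, div_lt_one hB1]; linarith
      obtain ⟨t, ht⟩ : ∃ t, t = min (1 - e) ((2 - θ - e * Q) / (Q + 1)) := ⟨_, rfl⟩
      have ht0 : 0 < t := by
        rw [ht]
        exact lt_min (by linarith) (div_pos (by linarith) (by linarith))
      have ht1 : t ≤ 1 - e := by rw [ht]; exact min_le_left _ _
      have ht2 : t * Q < 2 - θ - e * Q := by
        have h1 : t ≤ (2 - θ - e * Q) / (Q + 1) := by rw [ht]; exact min_le_right _ _
        have h2 : t * (Q + 1) ≤ 2 - θ - e * Q := by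
          rwa [le_div_iff₀ (by linarith)] at h1
        nlinarith
      refine ⟨e + t, by linarith, by linarith, by linarith, Or.inr ?_⟩
      have h6 : 0 < t * (B + 1) := mul_pos ht0 hB1
      nlinarith
  obtain ⟨δ, κ, μ, hδ, hκ, hμ, h⟩ := Pool.Agent.W5h24.EP.bridge B ε hB hε0 hε1 hs
  refine ⟨{y | IsCoprime y.1 y.2 ∧ Pool.Agent.W5h9.GC.Good ε κ y}, δ, hδ, fun y hy => hy.1, ?_,
    key Q θ ε κ hε0.le hε1 hκ hεQ⟩
  filter_upwards [h] with D hD
  obtain ⟨b1, b2, b3⟩ := hD
  refine ⟨b1, b2, fun x hx hxB => le_trans ?_ (b3 x hx hxB)⟩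
  have hfin : ({g : SpecialLinearGroup (Fin 2) ℤ | g ∈ Ball D ∧
      ¬ (Pool.Agent.W5h9.GC.Good ε κ (act g x) ∧
        μ * Real.log D ≤ Pool.Agent.W5h24.EP.hgt (act g x))}).Finite :=
    Set.Finite.subset b1 fun g hg => hg.1
  refine Nat.cast_le.2 (Set.ncard_le_ncard ?_ hfin)
  rintro g ⟨hg, hbad⟩
  exact ⟨hg, fun hP => hbad ⟨Pool.Agent.W5h24.EP.coprime_act g hx, hP.1⟩⟩

end Pool.Agent.Results.MP_8865d3_nt.EveryPointOfTheLine
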