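import Pool.Agent.W5h37.VT.Main
import Pool.Agent.W5h37.Thin.Digits
import Pool.Agent.W5h37.Thin.Smooth2

/-!
# Vojta's inequality with multiplier ideals over almost all points of thin sets, with moving ideals

The setting is that of the starting file `EveryCover`. Let `X` be a normal variety over `ℚ`, of any
dimension `n`, and `π : X → ℙⁿ` a finite morphism of degree `N`; its homogeneous coordinate ring `A`
is a normal domain, finite and of rank `N` over `ℚ[x_0, …, x_n]`. Let `F_j = 0` be distinct
hyperplanes, `s_j` the degree over `F_j = 0` of its reduced preimage in `X` (`SheetsLE`; `s_j < N` if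
`F_j = 0` is in the branch divisor). If `K` is the residue field of a closed point `P` of `X` over
`x ∈ ℙⁿ(ℚ)` and `[K : ℚ] = N`, the height of `P` with respect to the part of the ramification divisor
of `π` over the hyperplanes `F_j = 0` is `∑ (1 - s_j / N) h(x) + O(1)`; and if the pull-back of the
form `G ≠ 0` of degree `k` lies in `I(k)` for the ideal sheaf `I`, the sum of `λ_I(P, v)` over the real
place and the places in `S` is at most `proximity G k S x + O(1)`.

The starting file proves, for a FIXED form `G` and a FIXED finite set `S`, that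
`κ log X + m_S(G, x) ≤ d(K)` for each `κ < ∑ (1 - s_j / N)` and for almost all integral vectors `x` in
the full box of size `X`. The theorem below is about the points with coordinates in THIN sets, and the
form `G` and the places `S` may MOVE with the point:

Let `B_0, …, B_n` be sets of integers from `1` to `X` such that every arithmetic progression with `M`
terms contains at most `X ^ η |B_i| (M / X) ^ θ` elements of `B_i`, with `θ > 1 / 2`
(`Spread X θ (X ^ η) (B i)`; such sets can have as few as `X ^ θ` elements, so that their products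
are not seen by results about almost all points of a box). Then, for all `a` in `B_0 × ⋯ × B_n`
outside an exceptional set which is smaller by a power of `X`, the inequality holds for all points of
degree `N` over `a`, ALL forms `G` of degree at most `d` with coefficients at most `X ^ η` and ALL sets
`S` of at most `s₀` primes up to `X ^ η`, simultaneously. In the notation of the problem: with the
ramification divisor instead of `K_X`, `h_R(P) + ∑_{v ∈ S} λ_I(P, v) ≤ d(P) + ε h(P) + O(1)` for all
ideals `I` at once, fixed or moving.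

Examples of such sets (parts 2 and 3 of the theorem) are the integers with restricted digits, if more
than `g ^ θ` digits to the base `g` are allowed at each place, and the smooth numbers.
-/

set_option autoImplicit false

namespace Pool.Agent.Results.MP_8865d3_nt.ThinSets

open MvPolynomial Filter Pool.Agent.W5h37.Thin

/-- The reduced preimage in `Spec A` of the prime divisor `F = 0` of `Spec R` has degree at most `s`
over it: after inverting an element `g` of `R` not divisible by `F`, the `R`-module `A / √(F A)` is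
generated by `s` elements. -/
def SheetsLE {R : Type} (A : Type) [CommRing R] [CommRing A] [Algebra R A] (F : R) (s : ℕ) : Prop :=
  ∃ g : R, ¬ F ∣ g ∧ ∃ a : Fin s → A, ∀ b : A, ∃ r : Fin s → R,
    algebraMap R A g * b - ∑ l, algebraMap R A (r l) * a l ∈
      (Ideal.span {algebraMap R A F}).radical

/-- The logarithmic discriminant of a number field (over `ℚ`). -/
noncomputable def logDisc (K : Type) [Field K] [NumberField K] : ℝ :=
  Real.log |(NumberField.discr K : ℝ)| / Module.finrank ℚ K

/-- The proximity function of the divisor `G = 0` of projective space, `G` a form of degree `k`,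
with respect to the real place and the primes in `S`:
`k log max |x_i| - log |G(x)| + ∑_{p ∈ S} v_p(G(x)) log p`. -/
noncomputable def proximity {n : ℕ} (G : MvPolynomial (Fin n) ℤ) (k : ℕ) (S : Finset ℕ)
    (x : Fin n → ℤ) : ℝ :=
  k * Real.log (Finset.univ.sup fun i => (x i).natAbs : ℕ) - Real.log |(eval x G : ℝ)| +
    ∑ p ∈ S, padicValInt p (eval x G) * Real.log p

lemma irreducible_linear {n : ℕ} (F : MvPolynomial (Fin n) ℤ) (hF : F.IsHomogeneous 1)
    (h0 : F ≠ 0) : Irreducible (map (Int.castRingHom ℚ) F) := by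
  have h1 : map (Int.castRingHom ℚ) F ≠ 0 := by
    intro h
    apply h0
    exact MvPolynomial.map_injective _ Int.cast_injective (by rw [h, map_zero])
  refine irreducible_of_totalDegree_eq_one ((hF.map _).totalDegree h1) ?_
  intro x hx
  obtain ⟨d, hd⟩ := exists_coeff_ne_zero h1
  refine isUnit_iff_ne_zero.2 ?_
  rintro rfl
  exact hd (zero_dvd_iff.1 (hx d))

open Classical in
/-- **Vojta's inequality at the points of degree `N` over almost all points of products of thin sets,
for every cover of degree `N` branched over hyperplanes, with moving ideals.** -/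
theorem result :
    -- (1) The inequality.
    (∀ (n : ℕ) (A : Type) [CommRing A] [IsDomain A] [IsIntegrallyClosed A]
      [Algebra (MvPolynomial (Fin (n + 1)) ℚ) A] [FaithfulSMul (MvPolynomial (Fin (n + 1)) ℚ) A]
      [Module.Finite (MvPolynomial (Fin (n + 1)) ℚ) A]
      (N : ℕ) (_ : Module.finrank (MvPolynomial (Fin (n + 1)) ℚ) A = N)
      -- hyperplanes
      (q : ℕ) (F : Fin q → MvPolynomial (Fin (n + 1)) ℤ) (s : Fin q → ℕ)
      (_ : ∀ j, (F j).IsHomogeneous 1) (_ : ∀ j, F j ≠ 0)
      (_ : ∀ i j, i ≠ j →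
        ¬ Associated (map (Int.castRingHom ℚ) (F i)) (map (Int.castRingHom ℚ) (F j)))
      (_ : ∀ j, s j ≤ N) (_ : ∀ j, SheetsLE A (map (Int.castRingHom ℚ) (F j)) (s j))
      (κ : ℝ) (_ : κ < ∑ j, (1 - (s j : ℝ) / N))
      -- the exponent of the thin sets, the degree of the forms and the number of the primes
      (θ : ℝ) (_ : 1 / 2 < θ) (_ : θ ≤ 1) (d s₀ : ℕ),
      ∃ δ η : ℝ, 0 < δ ∧ 0 < η ∧ ∀ᶠ H : ℕ in atTop, ∀ B : Fin (n + 1) → Finset ℕ,
        (∀ i, Spread H θ ((H : ℝ) ^ η) (B i)) →
          (((Fintype.piFinset B).filter fun a =>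
            ∃ (K : Type) (_ : Field K) (_ : NumberField K) (φ : A →+* K),
              Function.Surjective φ ∧ Module.finrank ℚ K = N ∧
              (∀ i, φ (algebraMap (MvPolynomial (Fin (n + 1)) ℚ) A (X i)) = a i) ∧
              ∃ (G : MvPolynomial (Fin (n + 1)) ℤ) (k : ℕ) (S : Finset ℕ), G ≠ 0 ∧ k ≤ d ∧
                G.IsHomogeneous k ∧ (∀ e, |((G.coeff e : ℤ) : ℝ)| ≤ (H : ℝ) ^ η) ∧ S.card ≤ s₀ ∧
                (∀ p ∈ S, p.Prime ∧ (p : ℝ) ≤ (H : ℝ) ^ η) ∧
                logDisc K < κ * Real.log H + proximity G k S (fun i => (a i : ℤ))).card : ℝ) ≤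
            (H : ℝ) ^ (-δ) * (Fintype.piFinset B).card) ∧
    -- (2) Integers with restricted digits.
    (∀ (g : ℕ) (D : ℕ → Finset ℕ) (θ η : ℝ), 2 ≤ g → (∀ i, D i ⊆ Finset.range g) → 0 < θ → θ ≤ 1 →
      (∀ i, (g : ℝ) ^ θ ≤ (D i).card) → 0 < η →
      ∀ᶠ n : ℕ in atTop, Spread (g ^ n) θ (((g ^ n : ℕ) : ℝ) ^ η) (Restricted g D n)) ∧
    -- (3) Smooth numbers.
    (∀ κ η : ℝ, 2 < κ → 0 < η → ∀ᶠ H : ℕ in atTop, ∀ k : ℕ, (Real.log H) ^ κ ≤ k →
      Spread H (1 - 1 / κ) ((H : ℝ) ^ η) (Nat.smoothNumbersUpTo H k)) := by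
  refine ⟨?_, ?_, ?_⟩
  · intro n A _ _ _ _ _ _ N hN q F s hhom hF0 hdist hsN hs κ hκ θ hθ hθ1 d s₀
    obtain ⟨δ, η, hδ, hη, h⟩ := W5h37.VT.main_thin (A := A) N hN F s hhom
      (fun j => irreducible_linear (F j) (hhom j) (hF0 j)) hdist hsN hs κ hκ θ hθ hθ1 d s₀
    refine ⟨δ, η, hδ, hη, ?_⟩
    filter_upwards [h] with H hH B hB
    obtain ⟨T, hT, hbad⟩ := hH B hB
    rw [Fintype.card_piFinset]
    push_cast
    refine le_trans ?_ hT
    have hsub : ((Fintype.piFinset B).filter fun a =>
            ∃ (K : Type) (_ : Field K) (_ : NumberField K) (φ : A →+* K),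
              Function.Surjective φ ∧ Module.finrank ℚ K = N ∧
              (∀ i, φ (algebraMap (MvPolynomial (Fin (n + 1)) ℚ) A (X i)) = a i) ∧
              ∃ (G : MvPolynomial (Fin (n + 1)) ℤ) (k : ℕ) (S : Finset ℕ), G ≠ 0 ∧ k ≤ d ∧
                G.IsHomogeneous k ∧ (∀ e, |((G.coeff e : ℤ) : ℝ)| ≤ (H : ℝ) ^ η) ∧ S.card ≤ s₀ ∧
                (∀ p ∈ S, p.Prime ∧ (p : ℝ) ≤ (H : ℝ) ^ η) ∧
                logDisc K < κ * Real.log H + proximity G k S (fun i => (a i : ℤ))) ⊆ T := by
      intro a ha
      rw [Finset.mem_filter] at ha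
      obtain ⟨haB, K, iF, iN, φ, hφ, hK, hφx, G, k, S, hG0, hk, hG, hGH, hS, hSp, hlt⟩ := ha
      refine hbad a haB ⟨K, iF, iN, φ, hφ, hK, fun i => ?_, G, k, S, hG0, hk, hG, hGH, hS, hSp, ?_⟩
      · rw [hφx i]
        push_cast
        rfl
      · unfold logDisc at hlt
        rw [hK] at hlt
        exact hlt
    exact_mod_cast Finset.card_le_card hsub
  · intro g D θ η hg hD hθ0 hθ1 hD2 hη
    have hg1 : (1 : ℝ) < g := by exact_mod_cast (by omega : 1 < g)
    have htop : Tendsto (fun n : ℕ => g ^ n) atTop atTop :=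
      tendsto_pow_atTop_atTop_of_one_lt (by omega)
    filter_upwards [htop.eventually (ev_const (4 * (g : ℝ) ^ 2) η hη), eventually_ge_atTop 1] with
      n hn hn1
    have h := spread_digits hg hD hθ0 hθ1 hD2 hn1
    refine ⟨h.1, h.2.1, fun c d N hd hN => (h.2.2 c d N hd hN).trans ?_⟩
    have h0 := h.card_pos
    gcongr
  · intro κ η hκ hη
    exact spread_smooth hκ hη

end Pool.Agent.Results.MP_8865d3_nt.ThinSets
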